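import Pool.Agent.Lib.helper22.CXPrune

set_option autoImplicit false

namespace Pool.Agent.H.MP_1ffe94_lc

open Finset Pool.Agent.Lib.CX Pool.Agent.Lib.helper22.CXPrune

def sat (w : ℤ) (n a : ℕ) : ℕ := if 2 * (a : ℤ) - n ≤ w - 2 then n else if 2 * (a : ℤ) - n ≤ w then a else 0

theorem cnt {n : ℕ} (φ : Fin n → ℤ) (h : ∀ j, φ j = 1 ∨ φ j = -1) (w : ℤ) :
    ∑ j, φ j = 2 * (#{j | φ j = 1} : ℕ) - n ∧ #{j | 1 ≤ w - ∑ j, φ j + φ j} = sat w n #{j | φ j = 1} := by
  have e : ∑ j, φ j = 2 * (#{j | φ j = 1} : ℕ) - n := by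
    have : ∀ j, φ j = 2 * (if φ j = 1 then 1 else 0) - 1 := fun j => by rcases h j with h | h <;> simp [h]
    rw [sum_congr rfl fun j _ => this j, sum_sub_distrib, ← mul_sum]
    simp
  refine ⟨e, ?_⟩
  rw [e, sat]
  split_ifs with h1 h2
  · rw [filter_true_of_mem fun j _ => by rcases h j with h | h <;> omega]; simp
  · congr 1; ext j; rcases h j with h | h <;> simp [h] <;> omega
  · rw [filter_false_of_mem fun j _ => by rcases h j with h | h <;> omega]; simp

theorem interp {ι : Type} [Fintype ι] [DecidableEq ι] (lo hi : ι → ℕ) (h : ∀ i, lo i ≤ hi i) :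
    ∀ T, ∑ i, lo i ≤ T → T ≤ ∑ i, hi i → ∃ a : ι → ℕ, (∀ i, lo i ≤ a i ∧ a i ≤ hi i) ∧ ∑ i, a i = T := by
  intro T h1
  induction T, h1 using Nat.le_induction with
  | base => exact fun _ => ⟨lo, fun i => ⟨le_rfl, h i⟩, rfl⟩
  | succ T _ ih =>
    intro h2
    obtain ⟨a, h3, h4⟩ := ih (by omega)
    obtain ⟨i, hi'⟩ : ∃ i, a i < hi i := by
      by_contra! hc
      have := sum_le_sum fun i (_ : i ∈ univ) => hc i
      omega
    refine ⟨fun j => a j + if j = i then 1 else 0, fun j => ?_, by simp [sum_add_distrib, h4]⟩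
    have := h3 j
    dsimp only
    split_ifs with e
    · subst e; omega
    · omega

/-- count form of the problem -/
def C {ι : Type} [Fintype ι] (n : ι → ℕ) (k : ℤ) : Prop :=
  ∃ a : ι → ℕ, (∀ i, a i ≤ n i) ∧ ∑ i, (2 * (a i : ℤ) - n i) ≤ k ∧
    ∑ i, n i ≤ 2 * ∑ i, sat (∑ i, (2 * (a i : ℤ) - n i)) (n i) (a i)

theorem wt {ι : Type} [Fintype ι] (n a : ι → ℕ) :
    ∑ i, (2 * (a i : ℤ) - n i) = 2 * (∑ i, a i : ℕ) - (∑ i, n i : ℕ) := by
  simp [sum_sub_distrib, mul_sum]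

theorem graph_iff {m : ℕ} (n : Fin m → ℕ) (k : ℤ) :
    (∃ f : (Σ i, Fin (n i)) → ℤ, (∀ v, f v = 1 ∨ f v = -1) ∧ ∑ v, f v ≤ k ∧
      Fintype.card (Σ i, Fin (n i)) ≤ 2 * #{v | 1 ≤ ∑ u with u = v ∨ v.1 ≠ u.1, f u}) ↔ C n k := by
  have key : ∀ f : (Σ i, Fin (n i)) → ℤ, (∀ v, f v = 1 ∨ f v = -1) →
      ∑ v, f v = ∑ i, (2 * ((#{j | f ⟨i, j⟩ = 1} : ℕ) : ℤ) - n i) ∧
      #{v | 1 ≤ ∑ u with u = v ∨ v.1 ≠ u.1, f u} = ∑ i, sat (∑ v, f v) (n i) #{j | f ⟨i, j⟩ = 1} := fun f hf => by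
    refine ⟨by rw [Fintype.sum_sigma]; exact sum_congr rfl fun i _ => (cnt _ (fun j => hf _) 0).1, ?_⟩
    have e : ∀ v : Σ i, Fin (n i), ∑ u with u = v ∨ v.1 ≠ u.1, f u = ∑ u, f u - ∑ j, f ⟨v.1, j⟩ + f v := fun v => by
      have h1 : ∑ j, f ⟨v.1, j⟩ = ∑ u, if v.1 = u.1 then f u else 0 := by
        rw [Fintype.sum_sigma, sum_eq_single v.1] <;> simp +contextual [eq_comm]
      have h2 : f v = ∑ u, if u = v then f u else 0 := by simp
      rw [h1, h2, sum_filter, ← sum_sub_distrib, ← sum_add_distrib]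
      refine sum_congr rfl fun u _ => ?_
      by_cases h : u = v
      · simp [h]
      · by_cases h' : v.1 = u.1 <;> simp [h, h']
    simp only [e]
    rw [card_filter, Fintype.sum_sigma]
    exact sum_congr rfl fun i _ => by rw [← (cnt _ (fun j => hf ⟨i, j⟩) _).2, card_filter]
  have hc : Fintype.card (Σ i, Fin (n i)) = ∑ i, n i := by simp
  constructor
  · rintro ⟨f, h1, h2, h3⟩
    obtain ⟨e1, e2⟩ := key f h1
    refine ⟨fun i => #{j | f ⟨i, j⟩ = 1}, fun i => (card_le_univ _).trans (by simp), e1 ▸ h2, ?_⟩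
    rwa [← e1, ← e2, ← hc]
  · rintro ⟨a, h1, h2, h3⟩
    obtain ⟨e1, e2⟩ := key (fun v => if (v.2 : ℕ) < a v.1 then 1 else -1) fun v => by split_ifs <;> simp
    have e3 : ∀ i, #{j : Fin (n i) | (if (j : ℕ) < a i then (1 : ℤ) else -1) = 1} = a i := fun i => by
      rw [filter_congr (q := fun j : Fin (n i) => (j : ℕ) < a i) fun j _ => by simp]
      simp [Fin.card_filter_val_lt, h1 i]
    simp only [e3] at e1 e2
    exact ⟨_, fun v => by split_ifs <;> simp, e1 ▸ h2, by rwa [e2, e1, hc]⟩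

theorem yes {ι : Type} [Fintype ι] [DecidableEq ι] [Nonempty ι] (n : ι → ℕ) (hn : ∀ i, 0 < n i) (k : ℤ)
    (h : 2 ≤ k ∨ 1 ≤ k ∧ (∑ i, n i) % 2 = 1) : C n k := by
  by_cases hp : (∑ i, n i) % 2 = 1
  · have h1 : ∑ i, n i ≤ 2 * ∑ i, (n i + 1) / 2 := by rw [mul_sum]; exact sum_le_sum fun i _ => by omega
    obtain ⟨a, h2, h3⟩ := interp (fun _ => 0) (fun i => (n i + 1) / 2) (by simp) ((∑ i, n i + 1) / 2) (by simp)
      (by omega)
    have e : ∑ i, (2 * (a i : ℤ) - n i) = 1 := by rw [wt, h3]; omega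
    refine ⟨a, fun i => by have := h2 i; have := hn i; omega, by omega, ?_⟩
    have : ∑ i, a i ≤ ∑ i, sat 1 (n i) (a i) := sum_le_sum fun i _ => by
      have := h2 i; have := hn i; unfold sat; split_ifs <;> omega
    rw [e]; omega
  · have h1 : ∑ i, (n i + 1) ≤ 2 * ∑ i, min (n i) (n i / 2 + 1) := by
      rw [mul_sum]; exact sum_le_sum fun i _ => by have := hn i; omega
    have h0 : 0 < Fintype.card ι := Fintype.card_pos
    simp only [sum_add_distrib, sum_const, card_univ, smul_eq_mul, mul_one] at h1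
    obtain ⟨a, h2, h3⟩ := interp (fun _ => 0) (fun i => min (n i) (n i / 2 + 1)) (by simp) ((∑ i, n i + 2) / 2)
      (by simp) (by omega)
    have e : ∑ i, (2 * (a i : ℤ) - n i) = 2 := by rw [wt, h3]; omega
    refine ⟨a, fun i => by have := h2 i; omega, by omega, ?_⟩
    have : ∑ i, a i ≤ ∑ i, sat 2 (n i) (a i) := sum_le_sum fun i _ => by
      have := h2 i; unfold sat; split_ifs <;> omega
    rw [e]; omega

theorem even_iff {ι : Type} [Fintype ι] [DecidableEq ι] (n : ι → ℕ) (hp : (∑ i, n i) % 2 = 0) :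
    C n 1 ↔ ∃ a : ι → ℕ, (∀ i, a i ≤ n i) ∧ 0 ≤ ∑ i, (2 * (a i : ℤ) - n i) ∧
      ∑ i, n i ≤ 2 * ∑ i, sat 0 (n i) (a i) := by
  constructor
  · rintro ⟨a, h1, h2, h3⟩
    rw [wt] at h2 h3
    have h4 := sum_le_sum fun i (_ : i ∈ univ) => h1 i
    obtain ⟨b, h5, h6⟩ := interp a n h1 ((∑ i, n i) / 2) (by omega) (by omega)
    refine ⟨b, fun i => (h5 i).2, by rw [wt, h6]; omega, h3.trans (Nat.mul_le_mul_left _ (sum_le_sum fun i _ => ?_))⟩
    have h7 : b i - a i ≤ ∑ j, (b j - a j) := single_le_sum (f := fun j => b j - a j) (by simp) (mem_univ i)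
    have h8 : ∑ j, (b j - a j) + ∑ j, a j = ∑ j, b j := by
      rw [← sum_add_distrib]; exact sum_congr rfl fun j _ => by have := h5 j; omega
    have := h5 i
    unfold sat; split_ifs <;> omega
  · rintro ⟨a, h1, h2, h3⟩
    rw [wt] at h2
    obtain ⟨b, h5, h6⟩ := interp (fun _ => 0) a (by simp) ((∑ i, n i) / 2) (by simp) (by omega)
    have e : ∑ i, (2 * (b i : ℤ) - n i) = 0 := by rw [wt, h6]; omega
    refine ⟨b, fun i => (h5 i).2.trans (h1 i), by omega, h3.trans (Nat.mul_le_mul_left _ (sum_le_sum fun i _ => ?_))⟩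
    have := h5 i
    have := h1 i
    rw [e]; unfold sat; split_ifs <;> omega

inductive Reach : List ℕ → ℕ → ℤ → Prop
  | nil : Reach [] 0 0
  | cons {L z y} (n a) : Reach L z y → a ≤ n → Reach (n :: L) (z + (n - sat 0 n a)) (y + (2 * a - n))

theorem sat_le {w : ℤ} {n a : ℕ} (h : a ≤ n) : sat w n a ≤ n := by unfold sat; split_ifs <;> omega

theorem reach_iff (L : List ℕ) : ∀ z y, Reach L z y ↔ ∃ a : Fin L.length → ℕ, (∀ i, a i ≤ L.get i) ∧
    y = ∑ i, (2 * (a i : ℤ) - L.get i) ∧ z + ∑ i, sat 0 (L.get i) (a i) = L.sum := by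
  induction L with
  | nil =>
    intro z y
    constructor
    · rintro ⟨⟩; exact ⟨Fin.elim0, by simp⟩
    · rintro ⟨a, -, h1, h2⟩
      simp at h1 h2; subst h1 h2; exact .nil
  | cons n L ih =>
    intro z y
    constructor
    · intro h
      cases h with
      | cons _ a h1 h2 =>
        obtain ⟨b, h3, h4, h5⟩ := (ih _ _).1 h1
        refine ⟨Fin.cons a b, fun i => Fin.cases h2 h3 i, ?_, ?_⟩
        · simp only [List.length_cons, Fin.sum_univ_succ, h4]; simp [add_comm]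
        · have := sat_le (w := 0) h2
          simp only [List.length_cons, Fin.sum_univ_succ, List.sum_cons, ← h5]; simp; omega
    · rintro ⟨a, h1, h2, h3⟩
      simp only [List.length_cons, Fin.sum_univ_succ, List.sum_cons] at h2 h3
      have h4 : ∑ i : Fin L.length, sat 0 (L.get i) (a i.succ) ≤ L.sum := by
        rw [← Fin.sum_univ_getElem]; exact sum_le_sum fun i _ => sat_le (h1 i.succ)
      have h5 : a 0 ≤ n := h1 0
      have := Reach.cons n (a 0) ((ih (L.sum - ∑ i : Fin L.length, sat 0 (L.get i) (a i.succ)) _).2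
        ⟨fun i => a i.succ, fun i => h1 i.succ, rfl, Nat.sub_add_cancel h4⟩) h5
      have h6 := sat_le (w := 0) h5
      convert this using 1
      · simp at h3 h4 ⊢; omega
      · rw [h2]; simp [add_comm]

def step (M : ℕ) (S : List (ℕ × ℕ)) (n : ℕ) : List (ℕ × ℕ) :=
  pr (fun p => p.2) (fun p q => decide (p.1 ≤ q.1)) (S.flatMap fun p =>
    [(p.1 + n, min (p.2 + n) (2 * M)), (p.1 + (n + 1) / 2, p.2 - n % 2)] ++
      if 2 ≤ n then [(p.1, p.2 - (2 + n % 2))] else [])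

theorem dp (M : ℕ) (L : List ℕ) (hL : 3 * L.length ≤ M) :
    (∀ p ∈ L.foldr (fun n S => step M S n) [(0, M)], M ≤ p.2 + 3 * L.length ∧ p.2 ≤ 2 * M ∧ p.1 ≤ L.sum ∧
      ∃ y, Reach L p.1 y ∧ (p.2 : ℤ) ≤ y + M) ∧
    (∀ z y, Reach L z y → ∃ p ∈ L.foldr (fun n S => step M S n) [(0, M)], p.1 ≤ z ∧
      min (y + M) (2 * M - 3 * L.length) ≤ (p.2 : ℤ)) ∧
    (L.foldr (fun n S => step M S n) [(0, M)]).length ≤ 2 * M + 1 := by
  induction L with
  | nil =>
    refine ⟨by simpa using ⟨by omega, 0, .nil, le_rfl⟩, fun z y h => ?_, by simp⟩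
    cases h; simp
  | cons n L ih =>
    obtain ⟨i1, i2, -⟩ := ih (by simp at hL; omega)
    simp only [List.foldr_cons, List.length_cons, List.sum_cons] at *
    generalize L.foldr (fun n S => step M S n) [(0, M)] = S at *
    obtain ⟨p1, p2, p3⟩ := pr_spec (d := fun p : ℕ × ℕ => p.2) (c := fun p q => decide (p.1 ≤ q.1))
      (t := fun p => p.1) (by simp) (S.flatMap fun p =>
        [(p.1 + n, min (p.2 + n) (2 * M)), (p.1 + (n + 1) / 2, p.2 - n % 2)] ++
        if 2 ≤ n then [(p.1, p.2 - (2 + n % 2))] else [])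
    have key : ∀ p ∈ (S.flatMap fun p => [(p.1 + n, min (p.2 + n) (2 * M)), (p.1 + (n + 1) / 2, p.2 - n % 2)] ++
        if 2 ≤ n then [(p.1, p.2 - (2 + n % 2))] else []), M ≤ p.2 + 3 * (L.length + 1) ∧ p.2 ≤ 2 * M ∧
        p.1 ≤ n + L.sum ∧ ∃ y, Reach (n :: L) p.1 y ∧ (p.2 : ℤ) ≤ y + M := fun p hp => by
      obtain ⟨q, h1, h2⟩ := List.mem_flatMap.1 hp
      obtain ⟨a1, a2, a3, y, a4, a5⟩ := i1 q h1
      simp only [List.mem_append, List.mem_cons, List.not_mem_nil, or_false, List.mem_ite_nil_right] at h2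
      rcases h2 with (rfl | rfl) | ⟨h3, rfl⟩
      · by_cases h0 : n = 0
        · subst h0
          exact ⟨by omega, by omega, by omega, _, by simpa using Reach.cons 0 0 a4 le_rfl, by omega⟩
        · refine ⟨by omega, by omega, by omega, y + (2 * n - n), ?_, by omega⟩
          convert Reach.cons n n a4 le_rfl using 2
          unfold sat; split_ifs <;> omega
      · refine ⟨by omega, by omega, by omega, y + (2 * (n / 2 : ℕ) - n), ?_, by omega⟩
        convert Reach.cons n (n / 2) a4 (by omega) using 2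
        unfold sat; split_ifs <;> omega
      · refine ⟨by omega, by omega, by omega, y + (2 * (n / 2 - 1 : ℕ) - n), ?_, by omega⟩
        convert Reach.cons n (n / 2 - 1) a4 (by omega) using 1
        unfold sat; split_ifs <;> omega
    refine ⟨fun p hp => key p (p1 p hp), fun z y h => ?_, p3 _ fun v hv => (key v hv).2.1⟩
    cases h with
    | cons _ a h1 h2 =>
      obtain ⟨q, a1, a2, a3⟩ := i2 _ _ h1
      have b := i1 q a1
      by_cases c1 : 2 * (a : ℤ) - n ≤ 0 - 2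
      · obtain ⟨w, w1, w2, w3⟩ := p2 (q.1, q.2 - (2 + n % 2))
          (List.mem_flatMap.2 ⟨q, a1, by simp [show 2 ≤ n by omega]⟩)
        simp only [Nat.cast_le] at w2 w3
        exact ⟨w, w1, by omega, by push_cast; omega⟩
      · by_cases c2 : 2 * (a : ℤ) - n ≤ 0
        · obtain ⟨w, w1, w2, w3⟩ := p2 (q.1 + (n + 1) / 2, q.2 - n % 2) (List.mem_flatMap.2 ⟨q, a1, by simp⟩)
          simp only [Nat.cast_le] at w2 w3
          exact ⟨w, w1, by simp only [sat, c1, c2, if_true, if_false]; omega, by push_cast; omega⟩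
        · obtain ⟨w, w1, w2, w3⟩ := p2 (q.1 + n, min (q.2 + n) (2 * M)) (List.mem_flatMap.2 ⟨q, a1, by simp⟩)
          simp only [Nat.cast_le] at w2 w3
          exact ⟨w, w1, by simp only [sat, c1, c2, if_false]; omega, by push_cast; omega⟩

def run (L : List ℕ) : List (ℕ × ℕ) := L.reverse.foldl (step (3 * L.length)) [(0, 3 * L.length)]

theorem run_pt : PT run := by
  refine PT.foldl (F := fun L : List ℕ => step (3 * L.length))
    (B := fun L => (2 * (3 * L.length) + 1) * (size L.sum + (3 * (2 * (3 * L.length)) + 2) + 1 + 1) + 2)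
    (by unfold step pr; fun_prop) (by fun_prop) (by fun_prop) (by fun_prop) fun L k => ?_
  have h1 : 3 * (L.reverse.take k).reverse.length ≤ 3 * L.length := by simp
  obtain ⟨i1, -, i3⟩ := dp _ _ h1
  rw [List.foldr_reverse] at i1 i3
  refine (size_list_le (B := size L.sum + (3 * (2 * (3 * L.length)) + 2) + 1) fun p hp => ?_).trans (by gcongr)
  obtain ⟨-, a1, a2, -⟩ := i1 p hp
  have h2 : (L.reverse.take k).reverse.sum ≤ L.sum := by
    rw [List.sum_reverse, ← List.sum_reverse L]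
    exact (List.take_sublist _ _).sum_le_sum (by simp)
  have := size_nat_mono (a2.trans h2)
  have := size_nat_le p.2
  rw [size_pair]; omega

theorem run_iff (L : List ℕ) (hp : L.sum % 2 = 0) :
    C L.get 1 ↔ ∃ p ∈ run L, 3 * L.length ≤ p.2 ∧ 2 * p.1 ≤ L.sum := by
  have hs : ∑ i, L.get i = L.sum := Fin.sum_univ_getElem L
  obtain ⟨i1, i2, -⟩ := dp _ L le_rfl
  rw [even_iff _ (by rwa [hs]), run, List.foldl_reverse, hs]
  constructor
  · rintro ⟨a, h1, h2, h3⟩
    have h4 : ∑ i, sat 0 (L.get i) (a i) ≤ L.sum := hs ▸ sum_le_sum fun i _ => sat_le (h1 i)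
    obtain ⟨p, a1, a2, a3⟩ := i2 _ _ ((reach_iff L (L.sum - ∑ i, sat 0 (L.get i) (a i)) _).2 ⟨a, h1, rfl, by omega⟩)
    exact ⟨p, a1, by push_cast at a3; omega, by omega⟩
  · rintro ⟨p, h1, h2, h3⟩
    obtain ⟨-, -, -, y, a1, a2⟩ := i1 p h1
    obtain ⟨a, b1, b2, b3⟩ := (reach_iff L _ _).1 a1
    exact ⟨a, b1, by push_cast at a2; omega, by omega⟩

end Pool.Agent.H.MP_1ffe94_lc
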